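import Pool.Agent.Y294.TB.Stm

/-!
Project TB (plane tables, periodic orbits): the valuation ring argument at a reflection (DELTA).
-/

set_option autoImplicit false

namespace Pool.Agent.Y576.TB

/-! ### Elements algebraic over `k[w]` -/

section res

open Polynomial

theorem ev_swap {k A : Type*} [Field k] [Field A] [Algebra k A] (x y : A) (P : k[X][X]) :
    eval₂ (aeval y : k[X] →ₐ[k] A).toRingHom x (Polynomial.Bivariate.swap P) =
      eval₂ (aeval x : k[X] →ₐ[k] A).toRingHom y P := by
  have h : (eval₂RingHom (aeval y : k[X] →ₐ[k] A).toRingHom x).comp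
      (Polynomial.Bivariate.swap (R := k)).toRingEquiv.toRingHom =
      eval₂RingHom (aeval x : k[X] →ₐ[k] A).toRingHom y := by
    apply Polynomial.ringHom_ext'
    · apply Polynomial.ringHom_ext'
      · ext a
        simp [Polynomial.Bivariate.swap_C]
      · simp [Polynomial.Bivariate.swap_C]
    · simp [Polynomial.Bivariate.swap_Y]
  exact RingHom.congr_fun h P

/-- an element algebraic over `k[w]`, `w` not in `B`, gives a polynomial small at `y` -/
theorem small {k F : Type*} [Field k] [Field F] [Algebra k F] (B : ValuationSubring F)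
    (hk : ∀ a : k, algebraMap k F a ∈ B) {y w : F} (hyB : y ∈ B)
    (hy : IsAlgebraic (Algebra.adjoin k {w}) y) (hw : w ∉ B) :
    ∃ f : k[X], f ≠ 0 ∧ B.valuation (aeval y f) < 1 := by
  obtain ⟨p, hp0, hp⟩ := hy
  have hwm : w ∈ Algebra.adjoin k {w} := Algebra.self_mem_adjoin_singleton k w
  let ψ : k[X] →+* Algebra.adjoin k {w} :=
    (aeval (⟨w, hwm⟩ : Algebra.adjoin k {w}) : k[X] →ₐ[k] _).toRingHom
  have hψc : ∀ g : k[X], ((ψ g : Algebra.adjoin k {w}) : F) = aeval w g := by
    intro g
    show (Algebra.adjoin k {w}).val (aeval (⟨w, hwm⟩ : Algebra.adjoin k {w}) g) = aeval w g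
    rw [← Polynomial.aeval_algHom_apply]
    rfl
  have hψ : Function.Surjective ψ := by
    rintro ⟨c, hc⟩
    obtain ⟨g, hg⟩ := Algebra.adjoin_mem_exists_aeval k w hc
    exact ⟨g, Subtype.ext ((hψc g).trans hg)⟩
  obtain ⟨P, rfl⟩ := Polynomial.map_surjective ψ hψ p
  have hP0 : P ≠ 0 := by
    rintro rfl
    exact hp0 (Polynomial.map_zero _)
  have h1 : eval₂ (aeval w : k[X] →ₐ[k] F).toRingHom y P = 0 := by
    rw [Polynomial.aeval_def, Polynomial.eval₂_map] at hp
    rw [← hp]
    exact congrArg (fun r => eval₂ r y P) (RingHom.ext fun g => (hψc g).symm)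
  set Q : k[X][X] := Polynomial.Bivariate.swap P with hQ
  have hQ0 : Q ≠ 0 := by
    rw [hQ]
    exact (map_ne_zero_iff _ (Polynomial.Bivariate.swap (R := k)).injective).2 hP0
  have h2 : eval₂ (aeval y : k[X] →ₐ[k] F).toRingHom w Q = 0 := by
    rw [hQ, ev_swap, h1]
  refine ⟨Q.leadingCoeff, leadingCoeff_ne_zero.2 hQ0, ?_⟩
  set v := B.valuation with hv
  have hw1 : 1 < v w := by
    rw [← not_le, B.valuation_le_one_iff]
    exact hw
  have hB : ∀ f : k[X], v (aeval y f) ≤ 1 := by
    intro f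
    rw [B.valuation_le_one_iff, aeval_eq_sum_range]
    refine sum_mem fun i _ => ?_
    rw [Algebra.smul_def]
    exact mul_mem (hk _) (pow_mem hyB _)
  rw [eval₂_eq_sum_range, Finset.sum_range_succ] at h2
  have h3 : aeval y Q.leadingCoeff * w ^ Q.natDegree =
      -∑ i ∈ Finset.range Q.natDegree, aeval y (Q.coeff i) * w ^ i := by
    rw [eq_neg_iff_add_eq_zero, add_comm]
    exact h2
  have h4 : v (aeval y Q.leadingCoeff * w ^ Q.natDegree) < v w ^ Q.natDegree := by
    rw [h3, Valuation.map_neg]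
    refine Valuation.map_sum_lt _ (pow_ne_zero _ (zero_lt_one.trans hw1).ne') fun i hi => ?_
    rw [map_mul, map_pow]
    calc v (aeval y (Q.coeff i)) * v w ^ i ≤ 1 * v w ^ i := by gcongr; exact hB _
      _ = v w ^ i := one_mul _
      _ < v w ^ Q.natDegree := pow_lt_pow_right₀ hw1 (Finset.mem_range.1 hi)
  rw [map_mul, map_pow] at h4
  by_contra h5
  push Not at h5
  exact absurd h4 (not_lt.2 (le_mul_of_one_le_left' h5))


/-- RES -/
theorem res {k F : Type*} [Field k] [Field F] [Algebra k F] (B : ValuationSubring F)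
    (hk : ∀ a : k, algebraMap k F a ∈ B) {y w q : F} (hq : q ∈ B)
    (hy : IsAlgebraic (Algebra.adjoin k {w}) y) (hw : w ∉ B) (hyq : B.valuation (y - q) < 1)
    (hR : ∀ f : k[X], f ≠ 0 → aeval q f ∉ B.nonunits) : False := by
  have hyB : y ∈ B := by
    have h := B.add_mem _ _ ((B.valuation_le_one_iff _).1 hyq.le) hq
    rwa [sub_add_cancel] at h
  obtain ⟨f, hf0, hf⟩ := small B hk hyB hy hw
  apply hR f hf0
  rw [ValuationSubring.mem_nonunits_iff]
  let φ : k →+* B := (algebraMap k F).codRestrict B.toSubring hk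
  have h1 : ∀ x : B, (((f.map φ).eval x : B) : F) = aeval (x : F) f := by
    intro x
    rw [Polynomial.eval_map, aeval_def]
    have h := Polynomial.hom_eval₂ f φ B.subtype x
    exact h
  obtain ⟨c, hc⟩ := Polynomial.sub_dvd_eval_sub (⟨y, hyB⟩ : B) ⟨q, hq⟩ (f.map φ)
  have h2 : aeval y f - aeval q f = (y - q) * (c : F) := by
    rw [← h1 ⟨y, hyB⟩, ← h1 ⟨q, hq⟩]
    exact congrArg (fun t : B => (t : F)) hc
  have h3 : aeval q f = aeval y f - (y - q) * (c : F) := by
    rw [← h2]
    ring
  rw [h3]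
  refine (Valuation.map_sub _ _ _).trans_lt (max_lt hf ?_)
  rw [map_mul]
  exact mul_lt_one_of_lt_of_le hyq ((B.valuation_le_one_iff _).2 c.2)

end res

/-! ### The computation with the valuation -/

section val

variable {F : Type*} [Field F] {Γ₀ : Type*} [LinearOrderedCommGroupWithZero Γ₀]
  (v : Valuation F Γ₀)

theorem mle {a b : F} (ha : v a ≤ 1) (hb : v b ≤ 1) : v (a * b) ≤ 1 := by
  rw [map_mul]
  exact mul_le_one' ha hb

theorem mlt {a b : F} (ha : v a < 1) (hb : v b ≤ 1) : v (a * b) < 1 := by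
  rw [map_mul]
  exact mul_lt_one_of_lt_of_le ha hb

theorem mlt' {a b : F} (ha : v a ≤ 1) (hb : v b < 1) : v (a * b) < 1 := by
  rw [mul_comm]
  exact mlt v hb ha

theorem core (h2 : v 2⁻¹ ≤ 1) (h20 : (2 : F) ≠ 0)
    (qz qw qz' qw' f h f' h' σ s s' z w r N : F)
    (vqz : v qz ≤ 1) (vqw : v qw ≤ 1) (vqz' : v qz' ≤ 1) (vqw' : v qw' ≤ 1) (vf : v f < 1)
    (vh : v h = 1) (vh' : v h' ≤ 1) (hor : v f' = 1 ∨ v h' = 1) (vσ : v σ ≤ 1)
    (hN : f * h = N) (hN' : f' * h' = N) (hz : z = qz + s * f) (hw : w = qw + s * h)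
    (hz' : z = qz' + s' * f') (hw' : w = qw' + s' * h')
    (hU : v (N * (s + s' + σ) ^ 2) = 1) (hr : h' ≠ 0 → r * (h * h') = N)
    (hM : 1 < v w → ¬ v (z - qz) < 1 ∧ ¬ v (z + w * r - qz) < 1 ∧
      ¬ v (-((((w * r) / z) ^ 2 - 1) * z) / 2 - qz) < 1) : False := by
  set T := s + s' + σ with hT
  have vN : v N < 1 := by
    rw [← hN]
    exact mlt v vf vh.le
  have vT : 1 < v T := by
    by_contra hcon
    push Not at hcon
    have h1 : v (N * T ^ 2) < 1 := by
      rw [pow_two]
      exact mlt v vN (mle v hcon hcon)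
    exact absurd hU h1.ne
  -- (2)
  have vs : 1 < v s := by
    by_contra hcon
    push Not at hcon
    have vz : v z ≤ 1 := by
      rw [hz]
      exact v.map_add_le vqz (mle v hcon vf.le)
    have vw : v w ≤ 1 := by
      rw [hw]
      exact v.map_add_le vqw (mle v hcon vh.le)
    have h1 : v (s' * f') ≤ 1 := by
      have : s' * f' = z - qz' := by rw [hz']; ring
      rw [this]
      exact v.map_sub_le vz vqz'
    have h3 : v (s' * h') ≤ 1 := by
      have : s' * h' = w - qw' := by rw [hw']; ring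
      rw [this]
      exact v.map_sub_le vw vqw'
    have vs' : v s' ≤ 1 := by
      rcases hor with h4 | h4
      · rwa [map_mul, h4, mul_one] at h1
      · rwa [map_mul, h4, mul_one] at h3
    exact absurd vT (not_lt.2 (v.map_add_le (v.map_add_le hcon vs') vσ))
  have vw : v w = v s := by
    have h1 : v (s * h) = v s := by rw [map_mul, vh, mul_one]
    rw [hw, v.map_add_eq_of_lt_right (h1.symm ▸ vqw.trans_lt vs), h1]
  have vw1 : 1 < v w := vw ▸ vs
  have hA : v s' * v h' = v s := by
    have h1 : s' * h' = w - qw' := by rw [hw']; ring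
    rw [← map_mul, h1, v.map_sub_eq_of_lt_left (vqw'.trans_lt vw1), vw]
  have vs' : 1 < v s' := by
    refine vs.trans_le ?_
    rw [← hA]
    exact mul_le_of_le_one_right' vh'
  -- (3)
  have vh1 : v h' = 1 := by
    by_contra hcon
    have h1 : v f' = 1 := hor.resolve_right hcon
    have h3 : v h' < 1 := lt_of_le_of_ne vh' hcon
    have h4 : v z = v s' := by
      have h5 : v (s' * f') = v s' := by rw [map_mul, h1, mul_one]
      rw [hz', v.map_add_eq_of_lt_right (h5.symm ▸ vqz'.trans_lt vs'), h5]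
    have h5 : v (s * f) = v z := by
      have h6 : s * f = z - qz := by rw [hz]; ring
      rw [h6, v.map_sub_eq_of_lt_left (h4.symm ▸ vqz.trans_lt vs')]
    rw [map_mul, h4] at h5
    have h6 : v s' < v s := by
      rw [← h5]
      exact mul_lt_of_lt_one_right (zero_lt_one.trans vs) vf
    have h7 : v s < v s' := by
      rw [← hA]
      exact mul_lt_of_lt_one_right (zero_lt_one.trans vs') h3
    exact absurd h6 h7.not_gt
  have vss : v s' = v s := by rw [← hA, vh1, mul_one]
  have h0 : h ≠ 0 := by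
    rintro rfl
    rw [map_zero] at vh
    exact zero_ne_one vh
  have h'0 : h' ≠ 0 := by
    rintro rfl
    rw [map_zero] at vh1
    exact zero_ne_one vh1
  have s0 : s ≠ 0 := by
    rintro rfl
    rw [map_zero] at vs
    exact absurd vs (not_lt.2 zero_le_one)
  have vf1 : v f' = v N := by rw [← hN', map_mul, vh1, mul_one]
  -- (4)
  set β := (qw' - qw) + σ * h with hβ
  have vβ : v β ≤ 1 := v.map_add_le (v.map_sub_le vqw' vqw) (mle v vσ vh.le)
  have hsh : s * h = (qw' - qw) + s' * h' := by
    have h1 : qw + s * h = qw' + s' * h' := by rw [← hw, ← hw']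
    linear_combination h1
  have hTβ : s' * (h + h') = h * T - β := by
    rw [hT, hβ]
    linear_combination (-1 : F) * hsh
  have vNT : v (N * T) < 1 := by
    by_contra hcon
    push Not at hcon
    have h1 : v (N * T ^ 2) = v (N * T) * v T := by
      rw [← map_mul]
      congr 1
      ring
    rw [h1] at hU
    exact absurd hU (vT.trans_le (le_mul_of_one_le_left' hcon)).ne'
  have hzz : qz - qz' = s' * f' - s * f := by
    have h1 : qz + s * f = qz' + s' * f' := by rw [← hz, ← hz']
    linear_combination h1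
  have vD : v (qz - qz') < 1 := by
    have h1 : (qz - qz') * (h ^ 2 * h') = N * T * (h * (h - h')) - N * (β * (h - h'))
        - N * (h' * (qw' - qw)) := by
      have e : s' * f' * (h ^ 2 * h') = N * (s' * h ^ 2) := by rw [← hN']; ring
      have e' : s * f * (h ^ 2 * h') = N * ((s * h) * h') := by
        nth_rewrite 1 [← hN]
        ring
      rw [hzz, sub_mul, e, e', hsh]
      linear_combination (N * (h - h')) * hTβ
    have h3 : v ((qz - qz') * (h ^ 2 * h')) < 1 := by
      rw [h1]
      have a1 : v (h - h') ≤ 1 := v.map_sub_le vh.le vh'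
      refine v.map_sub_lt (v.map_sub_lt ?_ ?_) ?_
      · exact mlt v vNT (mle v vh.le a1)
      · exact mlt v vN (mle v vβ a1)
      · exact mlt v vN (mle v vh' (v.map_sub_le vqw' vqw))
    rwa [map_mul, map_mul, map_pow, vh, vh1, one_pow, one_mul, mul_one] at h3
  -- (5)
  obtain ⟨m1, m2, m3⟩ := hM vw1
  have hr' := hr h'0
  set x := z - qz with hx
  have hxs : x = s * f := by rw [hx, hz]; ring
  set e := qw / s with he
  have ve : v e < 1 := by
    rw [he, map_div₀]
    exact (div_lt_one₀ (zero_lt_one.trans vs)).2 (vqw.trans_lt vs)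
  have hes : e * s = qw := by rw [he]; field_simp
  set ρ := -(h + e) / h' with hρ
  have hρh : ρ * h' = -(h + e) := by rw [hρ]; field_simp
  have hfr : f = r * h' := by
    have h3 : f * h = (r * h') * h := by rw [hN, ← hr']; ring
    exact mul_right_cancel₀ h0 h3
  have hwr : w * r = -(ρ * x) := by
    rw [hxs, hw, hfr]
    linear_combination (-r) * hes + (s * r) * hρh
  have vhe : v (h + e) ≤ 1 := v.map_add_le vh.le ve.le
  have vρ : v ρ ≤ 1 := by
    have h1 : v (ρ * h') ≤ 1 := by
      rw [hρh, v.map_neg]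
      exact vhe
    rwa [map_mul, vh1, mul_one] at h1
  by_cases hg : v (h + h') < 1
  · -- (7)
    have vρ1 : v (ρ - 1) < 1 := by
      have h1 : v ((ρ - 1) * h') < 1 := by
        have e1 : (ρ - 1) * h' = -((h + h') + e) := by linear_combination hρh
        rw [e1, v.map_neg]
        exact v.map_add_lt hg ve
      rwa [map_mul, vh1, mul_one] at h1
    by_cases vz : v z ≤ 1
    · apply m2
      have e1 : z + w * r - qz = -((ρ - 1) * x) := by rw [hwr, hx]; ring
      rw [e1, v.map_neg]
      exact mlt v vρ1 (v.map_sub_le vz vqz)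
    · push Not at vz
      have z0 : z ≠ 0 := by
        rintro rfl
        rw [map_zero] at vz
        exact absurd vz (not_lt.2 zero_le_one)
      have vzs : v (z / s) < 1 := by
        have e1 : z / s = qz / s + f := by rw [hz]; field_simp
        rw [e1]
        refine v.map_add_lt ?_ vf
        rw [map_div₀]
        exact (div_lt_one₀ (zero_lt_one.trans vs)).2 (vqz.trans_lt vs)
      have vhz : v ((h + h') * z) < 1 := by
        have e1 : (h + h') * z = (h + h') * qz' + (f' * T * h - f' * β) := by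
          rw [hz']
          linear_combination f' * hTβ
        rw [e1]
        refine v.map_add_lt (mlt v hg vqz') (v.map_sub_lt ?_ (mlt v (vf1 ▸ vN) vβ))
        refine mlt v ?_ vh.le
        rw [map_mul, vf1, ← map_mul]
        exact vNT
      have vez : v (e * z) < 1 := by
        have e1 : e * z = qw * (z / s) := by rw [he]; field_simp
        rw [e1]
        exact mlt' v vqw vzs
      have v2 : ∀ a : F, v a ≤ 1 → v (2 * a) ≤ 1 := fun a ha => by
        rw [two_mul]
        exact v.map_add_le ha ha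
      have vρz : v ((ρ ^ 2 - 1) * z) < 1 := by
        have h1 : v ((ρ ^ 2 - 1) * z * h' ^ 2) < 1 := by
          have e1 : (ρ ^ 2 - 1) * z * h' ^ 2 = (h - h') * ((h + h') * z) +
              (2 * h + e) * (e * z) := by
            have e2 : ρ ^ 2 * h' ^ 2 = (h + e) ^ 2 := by
              rw [← mul_pow, hρh, neg_sq]
            linear_combination z * e2
          rw [e1]
          exact v.map_add_lt (mlt' v (v.map_sub_le vh.le vh') vhz)
            (mlt' v (v.map_add_le (v2 _ vh.le) ve.le) vez)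
        rwa [map_mul, map_pow, vh1, one_pow, mul_one] at h1
      have vρ2 : v (ρ ^ 2 - 1) < 1 := by
        have e1 : ρ ^ 2 - 1 = (ρ - 1) * (ρ + 1) := by ring
        rw [e1]
        exact mlt v vρ1 (v.map_add_le vρ v.map_one.le)
      apply m3
      have e1 : -((((w * r) / z) ^ 2 - 1) * z) / 2 - qz =
          2⁻¹ * (-((ρ ^ 2 - 1) * z)) + (ρ ^ 2 - 1) * qz - 2⁻¹ * (ρ ^ 2 * (qz * (qz / z))) := by
        rw [hwr, hx]
        field_simp
        ring
      rw [e1]
      refine v.map_sub_lt (v.map_add_lt (mlt' v h2 ?_) (mlt v vρ2 vqz)) (mlt' v h2 ?_)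
      · rw [v.map_neg]
        exact vρz
      · refine mlt' v ?_ (mlt' v vqz ?_)
        · rw [pow_two]
          exact mle v vρ vρ
        · rw [map_div₀]
          exact (div_lt_one₀ (zero_lt_one.trans vz)).2 (vqz.trans_lt vz)
  · -- (6)
    apply m1
    have hg1 : v (h + h') = 1 := le_antisymm (v.map_add_le vh.le vh') (not_lt.1 hg)
    have h1 : v s' = v T := by
      have h3 : v (s' * (h + h')) = v (h * T - β) := by rw [hTβ]
      rw [map_mul, hg1, mul_one] at h3
      rw [h3, v.map_sub_eq_of_lt_left, map_mul, vh, one_mul]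
      rw [map_mul, vh, one_mul]
      exact vβ.trans_lt vT
    have h3 : v (s' * f') < 1 := by
      rw [map_mul, h1, vf1, mul_comm, ← map_mul]
      exact vNT
    have e1 : x = s' * f' - (qz - qz') := by
      rw [hx, hz']
      ring
    rw [e1]
    exact v.map_sub_lt h3 vD

end val


/-! ### DELTA -/

open H450Al in
/-- DELTA -/
theorem delta : Pool.Agent.Y294.TB.S_DELTA := by
  intro k _ _ B hk qz qw qz' qw' f h f' h' σ s s' z w Pz Pw N hqz hqw hqz' hqw' hf hh hh1 hf' hh'
    hor hσ hN hN' hz hw hz' hw' hU hU1 hP hhh hPz hcl hR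
  have le : ∀ {a : ℂ}, a ∈ B → B.valuation a ≤ 1 := fun {a} ha => (B.valuation_le_one_iff a).2 ha
  have one : ∀ {a : ℂ}, a ∈ B → a ∉ B.nonunits → B.valuation a = 1 := fun {a} ha hn =>
    le_antisymm (le ha) (not_lt.1 fun hlt => hn (B.mem_nonunits_iff.2 hlt))
  have h2 : B.valuation (2⁻¹ : ℂ) ≤ 1 := by
    have e : algebraMap k ℂ (2⁻¹ : k) = 2⁻¹ := by rw [map_inv₀, map_ofNat]
    exact e ▸ le (hk _)
  have hr : Pw / Pz * (h * h') = N := by
    rw [div_mul_eq_mul_div, div_eq_iff hPz]
    apply mul_left_cancel₀ hhh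
    linear_combination (-(h * h')) * hP + (h' * Pz) * hN + (h * Pz) * hN'
  refine core B.valuation h2 two_ne_zero qz qw qz' qw' f h f' h' σ s s' z w (Pw / Pz) N (le hqz)
    (le hqw) (le hqz') (le hqw') (B.mem_nonunits_iff.1 hf) (one hh hh1) (le hh')
    (hor.imp (fun hn => one hf' hn) fun hn => one hh' hn) (le hσ) hN hN' hz hw hz' hw'
    (one hU hU1) (fun _ => hr) fun hvw => ?_
  have hwB : w ∉ B := by
    rw [← B.valuation_le_one_iff, not_le]
    exact hvw
  obtain ⟨hzc, hrc⟩ := hcl hwB
  have hwc : w ∈ clAlg k {w} := subset_cl k {w} rfl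
  have hzA : z ∈ clAlg k {w} := hzc
  have hrA : Pw / Pz ∈ clAlg k {w} := hrc
  have hz' : z⁻¹ ∈ clAlg k {w} := inv_mem_cl k hzc
  have h2' : (2⁻¹ : ℂ) ∈ clAlg k {w} := by
    have e : algebraMap k ℂ (2⁻¹ : k) = 2⁻¹ := by rw [map_inv₀, map_ofNat]
    rw [← e]
    exact (clAlg k {w}).algebraMap_mem _
  have key : ∀ y ∈ clAlg k {w}, ¬ B.valuation (y - qz) < 1 := fun y hy hlt =>
    res B hk hqz ((mem_cl k).1 hy) hwB hlt hR
  refine ⟨key _ hzA, key _ ((clAlg k {w}).add_mem hzA ((clAlg k {w}).mul_mem hwc hrA)),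
    key _ ?_⟩
  rw [div_eq_mul_inv, div_eq_mul_inv (w * (Pw / Pz))]
  exact (clAlg k {w}).mul_mem ((clAlg k {w}).neg_mem ((clAlg k {w}).mul_mem
    ((clAlg k {w}).sub_mem ((clAlg k {w}).pow_mem ((clAlg k {w}).mul_mem
      ((clAlg k {w}).mul_mem hwc hrA) hz') 2) (clAlg k {w}).one_mem) hzA)) h2'

end Pool.Agent.Y576.TB
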